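import Pool.Agent.Helper9.TDUniq

/-! Classification of the tridiagonal pairs all of whose eigenspaces have the same dimension
`ρ ≥ 2`, over an arbitrary field and for an arbitrary diameter. -/

set_option autoImplicit false

namespace Pool.Agent.Results.MP_0867a7_al.ConstShapeClassification

open Polynomial Module

/-- `a 0, …, a d` are mutually distinct, they are the eigenvalues of `A`, the map `A` is
diagonalizable, and `B` maps the eigenspace `V_i` of `A` for `a i` into
`V_{i-1} + V_i + V_{i+1}` (with `V_{-1} = V_{d+1} = 0`). -/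
def TDOrdering {K V : Type*} [Field K] [AddCommGroup V] [Module K V] (A B : Module.End K V)
    (d : ℕ) (a : ℕ → K) : Prop :=
  (∀ i ≤ d, ∀ j ≤ d, a i = a j → i = j) ∧
  (∀ i ≤ d, A.HasEigenvalue (a i)) ∧
  (⨆ (i : ℕ) (_ : i ≤ d), A.eigenspace (a i)) = ⊤ ∧
  ∀ i ≤ d, (A.eigenspace (a i)).map B ≤
    ⨆ (j : ℕ) (_ : j ≤ d ∧ j ≤ i + 1 ∧ i ≤ j + 1), A.eigenspace (a j)

/-- Tridiagonal pairs. -/
structure TDPair {K V : Type*} [Field K] [AddCommGroup V] [Module K V]
    (A B : Module.End K V) : Prop where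
  ordA : ∃ (d : ℕ) (a : ℕ → K), TDOrdering A B d a
  ordB : ∃ (e : ℕ) (b : ℕ → K), TDOrdering B A e b
  irred : ∀ W : Submodule K V, (∀ w ∈ W, A w ∈ W) → (∀ w ∈ W, B w ∈ W) → W = ⊥ ∨ W = ⊤

/-- The shape vector is `(ρ, ρ, …, ρ)`: every eigenspace of `A` has dimension `ρ`. -/
def ConstShape {K V : Type*} [Field K] [AddCommGroup V] [Module K V] (A : Module.End K V)
    (ρ : ℕ) : Prop :=
  ∀ μ : K, A.HasEigenvalue μ → finrank K (A.eigenspace μ) = ρ

/-- Isomorphism of pairs of linear maps. -/
def PairIso {K V V' : Type*} [Field K] [AddCommGroup V] [Module K V] [AddCommGroup V']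
    [Module K V'] (A B : Module.End K V) (A' B' : Module.End K V') : Prop :=
  ∃ σ : V ≃ₗ[K] V', (∀ v, σ (A v) = A' (σ v)) ∧ (∀ v, σ (B v) = B' (σ v))

/-- `∑_{h < i} (a_h - a_{d-h}) / (a_0 - a_d)` -/
def coef {K : Type*} [Field K] (d : ℕ) (a : ℕ → K) (i : ℕ) : K :=
  (∑ h ∈ Finset.range i, (a h - a (d - h))) / (a 0 - a d)

/-- `φ_i = coef_i * x + (b_i - b_0) (a_{i-1} - a_d)`, for an element `x` of a commutative
`K`-algebra `F`. -/
def phi {K F : Type*} [Field K] [CommRing F] [Algebra K F] (d : ℕ) (a b : ℕ → K) (x : F)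
    (i : ℕ) : F :=
  coef d a i • x + ((b i - b 0) * (a (i - 1) - a d)) • (1 : F)

/-- The first map of the model, on the `K`-vector space `F^(d+1)`:
`(A v)_i = a_i v_i + v_{i-1}`, with `v_{-1} = 0`. -/
def opA {K : Type*} (F : Type*) [Field K] [CommRing F] [Algebra K F] (d : ℕ) (a : ℕ → K) :
    Module.End K (Fin (d + 1) → F) where
  toFun v := fun i => a i • v i + if h : 0 < (i : ℕ) then v ⟨i - 1, by omega⟩ else 0
  map_add' v w := by
    funext i
    simp only [Pi.add_apply, smul_add]
    split_ifs <;> ring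
  map_smul' r v := by
    funext i
    simp only [Pi.smul_apply, RingHom.id_apply, smul_add, smul_comm (a i) r]
    split_ifs <;> simp

/-- The second map of the model: `(B v)_i = b_i v_i + φ_{i+1} v_{i+1}`, with `v_{d+1} = 0`. -/
def opB {K F : Type*} [Field K] [CommRing F] [Algebra K F] (d : ℕ) (a b : ℕ → K) (x : F) :
    Module.End K (Fin (d + 1) → F) where
  toFun v := fun i =>
    b i • v i + if h : (i : ℕ) < d then phi d a b x (i + 1) * v ⟨i + 1, by omega⟩ else 0
  map_add' v w := by
    funext i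
    simp only [Pi.add_apply, smul_add]
    split_ifs <;> ring
  map_smul' r v := by
    funext i
    simp only [Pi.smul_apply, RingHom.id_apply, smul_add, smul_comm (b i) r]
    split_ifs <;> simp

/-- The model over `F` with parameters `d, a, b, x` is a tridiagonal pair of shape `(ρ, …, ρ)`,
and `a`, `b` are orderings of the eigenvalues as in the definition of a tridiagonal pair. -/
def GivesPair {K F : Type*} [Field K] [CommRing F] [Algebra K F] (d : ℕ) (a b : ℕ → K) (x : F)
    (ρ : ℕ) : Prop :=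
  TDPair (opA F d a) (opB d a b x) ∧ ConstShape (opA F d a) ρ ∧
    TDOrdering (opA F d a) (opB d a b x) d a ∧ TDOrdering (opB d a b x) (opA F d a) d b

/-- The pair `A, B` is isomorphic to the model over `F` with parameters `d, a, b, x`. -/
def IsoToModel {K F V : Type*} [Field K] [CommRing F] [Algebra K F] [AddCommGroup V] [Module K V]
    (A B : Module.End K V) (d : ℕ) (a b : ℕ → K) (x : F) : Prop :=
  PairIso A B (opA F d a) (opB d a b x)

/-- The parameters of the classification: a diameter, two sequences of scalars, of which only the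
entries with index at most `d` matter, and a polynomial. -/
structure Datum (K : Type*) [Field K] where
  d : ℕ
  a : ℕ → K
  b : ℕ → K
  f : K[X]

namespace Datum

variable {K : Type*} [Field K]

/-- The admissible parameters: `d ≥ 1`, the `a i` are distinct, the `b i` are distinct, both
sequences satisfy the same recurrence, and `f` is monic irreducible of degree `ρ`. -/
structure Valid (D : Datum K) (ρ : ℕ) : Prop where
  pos : 1 ≤ D.d
  injA : ∀ i ≤ D.d, ∀ j ≤ D.d, D.a i = D.a j → i = j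
  injB : ∀ i ≤ D.d, ∀ j ≤ D.d, D.b i = D.b j → i = j
  recur : ∃ β : K, ∀ i, i + 3 ≤ D.d →
    D.a i - D.a (i + 3) = (β + 1) * (D.a (i + 1) - D.a (i + 2)) ∧
    D.b i - D.b (i + 3) = (β + 1) * (D.b (i + 1) - D.b (i + 2))
  monic : D.f.Monic
  irreducible : Irreducible D.f
  natDegree : D.f.natDegree = ρ

/-- The same parameters. -/
def Same (D D' : Datum K) : Prop :=
  D.d = D'.d ∧ (∀ i ≤ D.d, D.a i = D'.a i) ∧ (∀ i ≤ D.d, D.b i = D'.b i) ∧ D.f = D'.f

/-- Reverse the sequence `a`, and shift the polynomial by `(b_1 - b_0) (a_0 - a_d)`. -/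
noncomputable def revA (D : Datum K) : Datum K where
  d := D.d
  a := fun i => D.a (D.d - i)
  b := D.b
  f := D.f.comp (X - C ((D.b 1 - D.b 0) * (D.a 0 - D.a D.d)))

/-- Reverse the sequence `b`, and shift the polynomial by `(a_{d-1} - a_d) (b_d - b_0)`. -/
noncomputable def revB (D : Datum K) : Datum K where
  d := D.d
  a := D.a
  b := fun i => D.b (D.d - i)
  f := D.f.comp (X - C ((D.a (D.d - 1) - D.a D.d) * (D.b D.d - D.b 0)))

end Datum

/-! ### proofs -/

open Pool.Agent.Helper9.TD in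
theorem tdPair_iff {K V : Type*} [Field K] [AddCommGroup V] [Module K V] (A B : Module.End K V) :
    TDPair A B ↔ Pool.Agent.Helper9.TD.TDPair A B :=
  ⟨fun h => ⟨h.ordA, h.ordB, h.irred⟩, fun h => ⟨h.ordA, h.ordB, h.irred⟩⟩

theorem PairIso.symm {K V V' : Type*} [Field K] [AddCommGroup V] [Module K V] [AddCommGroup V']
    [Module K V'] {A B : Module.End K V} {A' B' : Module.End K V'} (h : PairIso A B A' B') :
    PairIso A' B' A B := by
  obtain ⟨σ, h1, h2⟩ := h
  refine ⟨σ.symm, fun v => ?_, fun v => ?_⟩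
  · apply σ.injective
    rw [h1, σ.apply_symm_apply, σ.apply_symm_apply]
  · apply σ.injective
    rw [h2, σ.apply_symm_apply, σ.apply_symm_apply]

theorem PairIso.trans {K V V' V'' : Type*} [Field K] [AddCommGroup V] [Module K V]
    [AddCommGroup V'] [Module K V'] [AddCommGroup V''] [Module K V''] {A B : Module.End K V}
    {A' B' : Module.End K V'} {A'' B'' : Module.End K V''} (h : PairIso A B A' B')
    (h' : PairIso A' B' A'' B'') : PairIso A B A'' B'' := by
  obtain ⟨σ, h1, h2⟩ := h
  obtain ⟨τ, h3, h4⟩ := h'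
  exact ⟨σ.trans τ, fun v => by simp [h1, h3], fun v => by simp [h2, h4]⟩

namespace Datum

open Pool.Agent.Helper9.TD

variable {K : Type*} [Field K]

/-- the first map attached to a datum -/
noncomputable abbrev mapA (D : Datum K) : Module.End K (Fin (D.d + 1) → AdjoinRoot D.f) :=
  opA (AdjoinRoot D.f) D.d D.a

/-- the second map attached to a datum -/
noncomputable abbrev mapB (D : Datum K) : Module.End K (Fin (D.d + 1) → AdjoinRoot D.f) :=
  opB D.d D.a D.b (AdjoinRoot.root D.f)

theorem spl (D : Datum K) :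
    Spl D.mapA D.mapB D.d D.a D.b (phiOp D.d D.a D.b (LinearMap.mulLeft K (AdjoinRoot.root D.f)))
      (mE (AdjoinRoot D.f) D.d) (mC (AdjoinRoot D.f) D.d) :=
  model_spl (AdjoinRoot D.f) D.d D.a D.b (AdjoinRoot.root D.f)
    (phi D.d D.a D.b (AdjoinRoot.root D.f))
    (fun i => by rw [phi, Algebra.smul_def, Algebra.smul_def, mul_one]; rfl)

theorem Valid.finite {D : Datum K} {ρ : ℕ} (h : D.Valid ρ) :
    FiniteDimensional K (AdjoinRoot D.f) :=
  (AdjoinRoot.powerBasis h.monic.ne_zero).finite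

theorem Valid.finrank {D : Datum K} {ρ : ℕ} (h : D.Valid ρ) :
    finrank K (AdjoinRoot D.f) = ρ := by
  rw [finrank_adjoinRoot _ h.monic, h.natDegree]

theorem Valid.ne {D : Datum K} {ρ : ℕ} (h : D.Valid ρ) : D.a 0 ≠ D.a D.d := by
  intro h1
  have := h.injA 0 (by omega) D.d le_rfl h1
  have := h.pos
  omega

/-- a pair in split form whose operator has minimal polynomial `f` is isomorphic to the model -/
theorem iso_of_spl (D : Datum K) {V U : Type*} [AddCommGroup V] [Module K V] [AddCommGroup U]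
    [Module K U] [FiniteDimensional K U] {A B : Module.End K V} {S : Module.End K U}
    {e : ℕ → U →ₗ[K] V} {c : ℕ → V →ₗ[K] U}
    (h : Spl A B D.d D.a D.b (phiOp D.d D.a D.b S) e c) (hS : IsSimpleOp S)
    (hf : minpoly K S = D.f) : PairIso A B D.mapA D.mapB := by
  obtain ⟨ψ, hψ⟩ := simple_iso' S hS D.f hf
  exact h.iso D.spl ψ hψ

theorem iso_same {D D' : Datum K} (h : D.Same D') : PairIso D.mapA D.mapB D'.mapA D'.mapB := by
  obtain ⟨d, a, b, f⟩ := D
  obtain ⟨d', a', b', f'⟩ := D'
  obtain ⟨h1, h2, h3, h4⟩ := h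
  simp only at h1 h2 h3 h4
  subst h1 h4
  have hs := (spl ⟨d, a, b, f⟩).congrN (a' := a') (b' := b') h2 h3
  exact hs.iso (spl ⟨d, a', b', f⟩) (LinearEquiv.refl K _) (fun _ => rfl)

theorem iso_revA {D : Datum K} {ρ : ℕ} (h : D.Valid ρ) :
    PairIso D.mapA D.mapB D.revA.mapA D.revA.mapB := by
  have hfin := h.finite
  obtain ⟨e', c', h1⟩ := D.spl.flipA h.recur h.injA h.pos
  exact iso_of_spl D.revA h1 (shift_simple (simple_root D.f h.irreducible) _)
    (minpoly_root_shift D.f h.monic _)

theorem iso_revB {D : Datum K} {ρ : ℕ} (hρ : 2 ≤ ρ) (h : D.Valid ρ) :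
    PairIso D.mapA D.mapB D.revB.mapA D.revB.mapB := by
  have hfin := h.finite
  obtain ⟨e', c', h1⟩ := D.spl.flipB h.recur h.injA h.injB h.pos
    (simple_root D.f h.irreducible) (by rw [h.finrank]; exact hρ)
  exact iso_of_spl D.revB h1 (shift_simple (simple_root D.f h.irreducible) _)
    (minpoly_root_shift D.f h.monic _)

theorem comp_shift_natDegree (f : K[X]) (κ : K) :
    (f.comp (X - C κ)).natDegree = f.natDegree := by
  rw [natDegree_comp, natDegree_X_sub_C, mul_one]

theorem valid_revA {D : Datum K} {ρ : ℕ} (h : D.Valid ρ) : D.revA.Valid ρ where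
  pos := h.pos
  injA := inj_rev h.injA
  injB := h.injB
  recur := PA.revA h.recur
  monic := h.monic.comp_X_sub_C _
  irreducible := by
    have hfin := h.finite
    have h1 := simple_irreducible _ (shift_simple (simple_root D.f h.irreducible)
      ((D.b 1 - D.b 0) * (D.a 0 - D.a D.d)))
    rwa [minpoly_root_shift D.f h.monic] at h1
  natDegree := by rw [revA, comp_shift_natDegree, h.natDegree]

end Datum

open Pool.Agent.Helper9.TD in
theorem partA {K : Type*} [Field K] (ρ : ℕ) (hρ : 2 ≤ ρ) (D : Datum K) (h : D.Valid ρ) :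
    TDPair D.mapA D.mapB ∧ ConstShape D.mapA ρ ∧ TDOrdering D.mapA D.mapB D.d D.a ∧
      TDOrdering D.mapB D.mapA D.d D.b := by
  have hfin := h.finite
  obtain ⟨h1, h2, h3, h4, -⟩ := D.spl.tdPair h.recur h.injA h.injB h.pos
    (simple_root D.f h.irreducible) (by rw [h.finrank]; exact hρ)
  refine ⟨(tdPair_iff _ _).mpr h1, ?_, h2, h3⟩
  intro μ hμ
  obtain ⟨k, hk, rfl⟩ := exists_index (TDOrdering.idem h2) μ hμ
  rw [h4 k hk, h.finrank]

open Pool.Agent.Helper9.TD in
theorem partB {K V : Type*} [Field K] [AddCommGroup V] [Module K V] [FiniteDimensional K V]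
    (ρ : ℕ) (hρ : 2 ≤ ρ) (A B : Module.End K V) (h : TDPair A B) (hs : ConstShape A ρ) :
    ∃ D : Datum K, D.Valid ρ ∧ PairIso A B D.mapA D.mapB := by
  obtain ⟨d, a, b, f, hd, ha, hb, hpa, hm, hi, hn, e, c, h1⟩ :=
    necessity ((tdPair_iff A B).mp h) ρ hρ hs
  have hfin : FiniteDimensional K (AdjoinRoot f) := (AdjoinRoot.powerBasis hm.ne_zero).finite
  refine ⟨⟨d, a, b, f⟩, ⟨hd, ha, hb, hpa, hm, hi, hn⟩, ?_⟩
  exact Datum.iso_of_spl ⟨d, a, b, f⟩ h1 (simple_root f hi) (minpoly_root_mul f hm)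

open Pool.Agent.Helper9.TD in
theorem same_of_iso {K : Type*} [Field K] (ρ : ℕ) (hρ : 2 ≤ ρ) (D D' : Datum K)
    (h : D.Valid ρ) (h' : D'.Valid ρ) (hiso : PairIso D.mapA D.mapB D'.mapA D'.mapB) :
    D'.Same D ∨ D'.Same D.revA ∨ D'.Same D.revB ∨ D'.Same D.revA.revB := by
  obtain ⟨σ, hσA, hσB⟩ := hiso
  have hfin := h.finite
  have hfin' := h'.finite
  have hS := simple_root D.f h.irreducible
  have hS' := simple_root D'.f h'.irreducible
  have s1 := D.spl.transport σ hσA hσB
  have s2 := D'.spl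
  have hr : 2 ≤ finrank K (AdjoinRoot D.f) := by rw [h.finrank]; exact hρ
  have hr' : 2 ≤ finrank K (AdjoinRoot D'.f) := by rw [h'.finrank]; exact hρ
  obtain ⟨-, oA1, oB1, -⟩ := s1.tdPair h.recur h.injA h.injB h.pos hS hr
  obtain ⟨p2, oA2, oB2, -⟩ := s2.tdPair h'.recur h'.injA h'.injB h'.pos hS' hr'
  obtain ⟨hd1, hA⟩ := ordering_unique p2.irred oA1 oA2
  obtain ⟨hd2, hB⟩ := ordering_unique (fun W h1 h2 => p2.irred W h2 h1) oB1 oB2
  have hne' : D'.a 0 ≠ D'.a D.d := by rw [hd1]; exact h'.ne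
  have injB' : ∀ i ≤ D.d, ∀ j ≤ D.d, D'.b i = D'.b j → i = j := by rw [hd1]; exact h'.injB
  obtain ⟨e0, c0, s2'⟩ : ∃ (e : ℕ → (AdjoinRoot D'.f) →ₗ[K] (Fin (D'.d + 1) → AdjoinRoot D'.f))
      (c : ℕ → (Fin (D'.d + 1) → AdjoinRoot D'.f) →ₗ[K] (AdjoinRoot D'.f)),
      Spl D'.mapA D'.mapB D.d D'.a D'.b (phiOp D.d D'.a D'.b
        (LinearMap.mulLeft K (AdjoinRoot.root D'.f))) e c := by
    rw [hd1]
    exact ⟨_, _, s2⟩
  have fin : ∀ (κ : K) (e : ℕ → (AdjoinRoot D.f) →ₗ[K] (Fin (D'.d + 1) → AdjoinRoot D'.f))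
      (c : ℕ → (Fin (D'.d + 1) → AdjoinRoot D'.f) →ₗ[K] (AdjoinRoot D.f)),
      Spl D'.mapA D'.mapB D.d D'.a D'.b (phiOp D.d D'.a D'.b
        (LinearMap.mulLeft K (AdjoinRoot.root D.f) + κ • (1 : Module.End K (AdjoinRoot D.f)))) e c →
      D'.f = D.f.comp (X - C κ) := by
    intro κ e c hs
    obtain ⟨ψ, hψ⟩ := hs.unique hne' injB' s2'
    have h1 := minpoly_conj _ _ ψ hψ
    rw [minpoly_root_shift D.f h.monic, minpoly_root_mul D'.f h'.monic] at h1
    exact h1.symm
  rcases hA with hA | hA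
  · rcases hB with hB | hB
    · left
      refine ⟨hd1.symm, fun i hi => hA i (by omega), fun i hi => hB i (by omega), ?_⟩
      have h3 := s1.congrN (a' := D'.a) (b' := D'.b) (fun i hi => (hA i hi).symm)
        (fun i hi => (hB i hi).symm)
      have h4 := fin 0 _ _ (by rw [zero_smul, add_zero]; exact h3)
      rw [h4]
      simp
    · right; right; left
      obtain ⟨e2, c2, s3⟩ := s1.flipB h.recur h.injA h.injB h.pos hS hr
      refine ⟨hd1.symm, fun i hi => hA i (by omega), fun i hi => hB i (by omega), ?_⟩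
      exact fin _ _ _ (s3.congrN (a' := D'.a) (b' := D'.b) (fun i hi => (hA i hi).symm)
        (fun i hi => (hB i hi).symm))
  · rcases hB with hB | hB
    · right; left
      obtain ⟨e2, c2, s3⟩ := s1.flipA h.recur h.injA h.pos
      refine ⟨hd1.symm, fun i hi => hA i (by omega), fun i hi => hB i (by omega), ?_⟩
      exact fin _ _ _ (s3.congrN (a' := D'.a) (b' := D'.b) (fun i hi => (hA i hi).symm)
        (fun i hi => (hB i hi).symm))
    · right; right; right
      obtain ⟨e2, c2, s3⟩ := s1.flipA h.recur h.injA h.pos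
      have hpa : PA D.d (fun i => D.a (D.d - i)) D.b := PA.revA h.recur
      obtain ⟨e3, c3, s4⟩ := s3.flipB hpa (inj_rev h.injA) h.injB h.pos
        (shift_simple hS _) hr
      refine ⟨hd1.symm, fun i hi => hA i (by omega), fun i hi => hB i (by omega), ?_⟩
      have s5 := s4.congrN (a' := D'.a) (b' := D'.b) (fun i hi => (hA i hi).symm)
        (fun i hi => (hB i hi).symm)
      rw [add_assoc, ← add_smul] at s5
      rw [fin _ _ _ s5]
      simp only [Datum.revB, Datum.revA]
      rw [comp_assoc]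
      congr 1
      simp only [sub_comp, X_comp, C_comp, map_add]
      ring

theorem iso_iff {K : Type*} [Field K] (ρ : ℕ) (hρ : 2 ≤ ρ) (D D' : Datum K)
    (h : D.Valid ρ) (h' : D'.Valid ρ) :
    PairIso D.mapA D.mapB D'.mapA D'.mapB ↔
      (D'.Same D ∨ D'.Same D.revA ∨ D'.Same D.revB ∨ D'.Same D.revA.revB) := by
  refine ⟨same_of_iso ρ hρ D D' h h', ?_⟩
  rintro (h1 | h1 | h1 | h1)
  · exact (Datum.iso_same h1).symm
  · exact (Datum.iso_revA h).trans (Datum.iso_same h1).symm
  · exact (Datum.iso_revB hρ h).trans (Datum.iso_same h1).symm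
  · exact ((Datum.iso_revA h).trans (Datum.iso_revB hρ (Datum.valid_revA h))).trans
      (Datum.iso_same h1).symm

/-- Sanity check: over every field, every monic irreducible polynomial occurs (already with
`d = 1`). -/
theorem valid_one {K : Type*} [Field K] (f : K[X]) (hm : f.Monic) (hi : Irreducible f) :
    (⟨1, fun i => (i : K), fun i => (i : K), f⟩ : Datum K).Valid f.natDegree where
  pos := le_rfl
  injA := by
    intro i hi j hj hij
    simp only at hi hj hij
    interval_cases i <;> interval_cases j <;> simp_all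
  injB := by
    intro i hi j hj hij
    simp only at hi hj hij
    interval_cases i <;> interval_cases j <;> simp_all
  recur := ⟨0, fun i hi => by simp only at hi; omega⟩
  monic := hm
  irreducible := hi
  natDegree := rfl

/-- **Classification of the tridiagonal pairs with shape vector `(ρ, …, ρ)`, `ρ ≥ 2`.**
Every admissible datum gives such a pair, every such pair is isomorphic to the pair of an
admissible datum, and two admissible data give isomorphic pairs exactly when they agree up to the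
four relabelings (reversing the orderings of the eigenspaces of either map). -/
theorem result {K : Type*} [Field K] (ρ : ℕ) (hρ : 2 ≤ ρ) :
    (∀ D : Datum K, D.Valid ρ → GivesPair D.d D.a D.b (AdjoinRoot.root D.f) ρ) ∧
    (∀ (V : Type*) [AddCommGroup V] [Module K V] [FiniteDimensional K V] (A B : Module.End K V),
      TDPair A B → ConstShape A ρ →
      ∃ D : Datum K, D.Valid ρ ∧ IsoToModel A B D.d D.a D.b (AdjoinRoot.root D.f)) ∧
    (∀ D D' : Datum K, D.Valid ρ → D'.Valid ρ →
      (IsoToModel (opA (AdjoinRoot D.f) D.d D.a) (opB D.d D.a D.b (AdjoinRoot.root D.f))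
          D'.d D'.a D'.b (AdjoinRoot.root D'.f) ↔
        (D'.Same D ∨ D'.Same D.revA ∨ D'.Same D.revB ∨ D'.Same D.revA.revB))) :=
  ⟨fun D h => partA ρ hρ D h, fun _ _ _ _ A B h hs => partB ρ hρ A B h hs,
    fun D D' h h' => iso_iff ρ hρ D D' h h'⟩

end Pool.Agent.Results.MP_0867a7_al.ConstShapeClassification
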